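import Pool.Agent.Mg.F7b7a6d.G5995e0

/-! The convex regions of least area that hold `n` unit discs, for every `n`. -/

open MeasureTheory Metric Real
open scoped Pointwise ENNReal

noncomputable section
namespace Pool.Agent.Results.MP_7b7a6d_co.AllN

/-- the Euclidean plane -/
abbrev Plane : Type := EuclideanSpace ℝ (Fin 2)

/-- `K` contains `n` closed unit discs whose centres are at mutual distance at least 2 -/
def Packs (n : ℕ) (K : Set Plane) : Prop :=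
  ∃ c : Fin n → Plane, (∀ i j, i ≠ j → 2 ≤ dist (c i) (c j)) ∧ ∀ i, closedBall (c i) 1 ⊆ K

/-- the points `s (2, 0) + u (1, √3)` with `0 ≤ s ≤ α`, `0 ≤ u ≤ β`, `c ≤ s + u ≤ α + β - c'` -/
def Hex (α β c c' : ℕ) : Set Plane :=
  {z | ∃ s u : ℝ, z 0 = 2 * s + u ∧ z 1 = √3 * u ∧ 0 ≤ s ∧ s ≤ α ∧ 0 ≤ u ∧ u ≤ β ∧
    (c : ℝ) ≤ s + u ∧ s + u ≤ α + β - c'}

/-- data of a Groemer hexagon with `n` lattice points and perimeter `2 p` -/
def Data (n p α β c c' : ℕ) : Prop :=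
  c ≤ α ∧ c ≤ β ∧ c' ≤ α ∧ c' ≤ β ∧ p + c + c' = 2 * α + 2 * β ∧
    2 * n + c * (c + 1) + c' * (c' + 1) = 2 * (α + 1) * (β + 1)

/-- the number in Wegner's bound -/
def p0 (n : ℕ) : ℕ := ⌈√(12 * (n : ℝ) - 3) - 3⌉₊

open Classical in
/-- `p0 n`, or `p0 n + 1` for the exceptional `n` -/
def pstar (n : ℕ) : ℕ := if ∃ α β c c', Data n (p0 n) α β c c' then p0 n else p0 n + 1

def minArea (n : ℕ) : ℝ≥0∞ :=
  ENNReal.ofReal (2 * √3 * ((n : ℝ) - 1) + (2 - √3) * pstar n + π)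

/-- the identification of `ℂ` with the plane -/
def phi : ℂ ≃ᵢ Plane := Complex.orthonormalBasisOneI.repr.toIsometryEquiv

theorem phi0 (z : ℂ) : phi z 0 = z.re := by simp [phi]

theorem phi1 (z : ℂ) : phi z 1 = z.im := by simp [phi]

theorem pstar_eq (n : ℕ) : pstar n = MP7b.ps n := rfl

theorem minArea_eq (n : ℕ) : minArea n = ENNReal.ofReal (MP7b.val n) := rfl

theorem phi_hex (α β c c' : ℕ) : phi '' MP7b.Hx α β c c' = Hex α β c c' := by
  ext z
  constructor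
  · rintro ⟨_, ⟨s, u, rfl, h⟩, rfl⟩
    refine ⟨s, u, ?_, ?_, h⟩
    · rw [phi0]; simp [MP7b.om]; ring
    · rw [phi1]; simp [MP7b.om]; ring
  · rintro ⟨s, u, h0, h1, h⟩
    refine ⟨_, ⟨s, u, rfl, h⟩, ?_⟩
    ext i
    fin_cases i
    · simp only [Fin.zero_eta, phi0, h0]; simp [MP7b.om]; ring
    · simp only [Fin.mk_one, phi1, h1]; simp [MP7b.om]; ring

theorem phi_rd (α β c c' : ℕ) :
    phi '' MP7b.Rd (MP7b.Hx α β c c') = Hex α β c c' + closedBall 0 1 := by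
  rw [← phi_hex]
  ext x
  constructor
  · rintro ⟨y, ⟨z, hz, h⟩, rfl⟩
    refine ⟨phi z, ⟨z, hz, rfl⟩, phi y - phi z, ?_, by simp⟩
    rwa [mem_closedBall_zero_iff, ← dist_eq_norm, phi.dist_eq]
  · rintro ⟨_, ⟨z, hz, rfl⟩, w, hw, rfl⟩
    refine ⟨phi.symm (phi z + w), ⟨z, hz, ?_⟩, phi.apply_symm_apply _⟩
    rw [← phi.dist_eq, phi.apply_symm_apply]
    simpa using hw

theorem pull {n : ℕ} {K : Set Plane} (hK : Convex ℝ K) (h : Packs n K) :
    Convex ℝ (phi.symm '' K) ∧ ∃ X : Finset ℂ, X.card = n ∧ MP7b.Sep X ∧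
      ∀ x ∈ X, closedBall x 1 ⊆ phi.symm '' K := by
  classical
  obtain ⟨c, h1, h2⟩ := h
  refine ⟨hK.affine_image phi.symm.toRealAffineIsometryEquiv.toAffineEquiv.toAffineMap,
    Finset.univ.image fun i => phi.symm (c i), ?_, ?_, ?_⟩
  · rw [Finset.card_image_of_injective, Finset.card_fin]
    intro i j e
    by_contra hij
    have := h1 i j hij
    rw [phi.symm.injective e, dist_self] at this
    norm_num at this
  · intro a ha b hb hab
    obtain ⟨i, -, rfl⟩ := Finset.mem_image.1 ha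
    obtain ⟨j, -, rfl⟩ := Finset.mem_image.1 hb
    rw [phi.symm.dist_eq]
    exact h1 i j fun e => hab (by rw [e])
  · intro x hx
    obtain ⟨i, -, rfl⟩ := Finset.mem_image.1 hx
    rw [← phi.symm.image_closedBall]
    exact Set.image_mono (h2 i)

theorem vol_hex {n α β c c' : ℕ} (hn : 1 ≤ n) (h : Data n (pstar n) α β c c') :
    volume (Hex α β c c' + closedBall 0 1) = minArea n := by
  rw [← phi_rd, MP7b.vol_iso]
  exact MP7b.vol_hex MP7b.main_all hn h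

theorem result (n : ℕ) (hn : 1 ≤ n) :
    IsLeast {v : ℝ≥0∞ | ∃ K : Set Plane, Convex ℝ K ∧ Packs n K ∧ volume K = v} (minArea n) ∧
    ∀ K : Set Plane, Convex ℝ K → Packs n K →
      (volume K = minArea n ↔ ∃ α β c c' : ℕ, Data n (pstar n) α β c c' ∧
        ∃ f : Plane ≃ᵢ Plane, K = f '' (Hex α β c c' + closedBall 0 1)) := by
  refine ⟨⟨?_, ?_⟩, fun K hK hP => ⟨fun hv => ?_, ?_⟩⟩
  · obtain ⟨α, β, c, c', h⟩ := MP7b.groemer_ps MP7b.nt_all hn
    refine ⟨_, ?_, ?_, vol_hex hn h⟩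
    · rw [← phi_rd]
      exact (MP7b.rd_Uba (MP7b.cvx_Uba _ _ _ _)).affine_image
        phi.toRealAffineIsometryEquiv.toAffineEquiv.toAffineMap
    · obtain ⟨⟨X, rfl, hS, hX⟩, -⟩ := MP7b.upper h
      refine ⟨fun i => phi (X.equivFin.symm i), fun i j hij => ?_, fun i => ?_⟩
      · rw [phi.dist_eq]
        exact hS _ (X.equivFin.symm i).2 _ (X.equivFin.symm j).2
          fun e => hij (X.equivFin.symm.injective (Subtype.ext e))
      · rw [← phi_rd, ← phi.image_closedBall]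
        exact Set.image_mono (MP7b.ball_Rd (hX _ (X.equivFin.symm i).2))
  · rintro _ ⟨K, hK, hP, rfl⟩
    obtain ⟨h1, X, rfl, hS, hb⟩ := pull hK hP
    rw [← MP7b.vol_iso phi.symm K]
    exact (MP7b.main_all X (Finset.card_pos.1 hn) hS _ h1 hb).1
  · obtain ⟨h1, X, rfl, hS, hb⟩ := pull hK hP
    obtain ⟨α, β, c, c', hd, f, hf⟩ := MP7b.shape MP7b.main_all (Finset.card_pos.1 hn) hS h1 hb
      (by rw [MP7b.vol_iso, hv, minArea_eq])
    refine ⟨α, β, c, c', hd, phi.symm.trans (f.trans phi), ?_⟩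
    rw [← phi_rd, Set.image_image]
    simp only [IsometryEquiv.trans_apply, IsometryEquiv.symm_apply_apply]
    rw [← Set.image_image phi f, ← hf, Set.image_image]
    simp
  · rintro ⟨α, β, c, c', hd, f, rfl⟩
    rw [MP7b.vol_iso, vol_hex hn hd]

/-- for the hexagonal numbers the only data are those of the regular hexagon -/
theorem hexagonal (k α β c c' : ℕ) : pstar (3 * k ^ 2 + 3 * k + 1) = 6 * k ∧
    (Data (3 * k ^ 2 + 3 * k + 1) (6 * k) α β c c' → α = 2 * k ∧ β = 2 * k ∧ c = k ∧ c' = k) := by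
  constructor
  · have h1 : 1 ≤ 3 * k ^ 2 + 3 * k + 1 := by omega
    refine le_antisymm (MP7b.ps_le h1 ⟨2 * k, 2 * k, k, k, by omega, by omega, by omega, by omega,
      by omega, by ring⟩) ?_
    have h2 := MP7b.groemer_le (MP7b.groemer_ps MP7b.nt_all h1)
    rw [pstar_eq]
    by_contra h3
    have : (MP7b.ps (3 * k ^ 2 + 3 * k + 1) + 3) ^ 2 < (6 * k + 3) ^ 2 :=
      Nat.pow_lt_pow_left (by omega) (by norm_num)
    nlinarith
  · rintro ⟨-, -, -, -, h1, h2⟩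
    zify at h1 h2 ⊢
    have e : ((α : ℤ) + β - 2 * c - 2 * c') ^ 2 + 3 * ((α : ℤ) - β) ^ 2 +
        3 * ((c : ℤ) - c') ^ 2 = 0 := by
      have e1 : (c' : ℤ) = 2 * α + 2 * β - 6 * k - c := by linarith
      rw [e1] at h2 ⊢
      linear_combination (6 : ℤ) * h2
    have a1 : (α : ℤ) + β - 2 * c - 2 * c' = 0 := by
      nlinarith [sq_nonneg ((α : ℤ) + β - 2 * c - 2 * c'), sq_nonneg ((α : ℤ) - β),
        sq_nonneg ((c : ℤ) - c')]
    have a2 : (α : ℤ) - β = 0 := by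
      nlinarith [sq_nonneg ((α : ℤ) + β - 2 * c - 2 * c'), sq_nonneg ((α : ℤ) - β),
        sq_nonneg ((c : ℤ) - c')]
    have a3 : (c : ℤ) - c' = 0 := by
      nlinarith [sq_nonneg ((α : ℤ) + β - 2 * c - 2 * c'), sq_nonneg ((α : ℤ) - β),
        sq_nonneg ((c : ℤ) - c')]
    omega

/-- the numbers `3 k² + 3 k - 5`, `k ≥ 6` (121, 163, 211, ...), are exceptional -/
theorem exceptional (k n : ℕ) (hk : 6 ≤ k) (hn : n + 5 = 3 * k ^ 2 + 3 * k) :
    p0 n = 6 * k ∧ pstar n = 6 * k + 1 := by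
  have h1 : 1 ≤ n := by nlinarith
  have h2 : p0 n = 6 * k := by
    refine le_antisymm (MP7b.pz_le h1 (by nlinarith)) ?_
    have h3 := (MP7b.pz_spec h1).2
    by_contra h4
    have : (MP7b.pz n + 3) ^ 2 ≤ (6 * k + 2) ^ 2 :=
      Nat.pow_le_pow_left (by change p0 n + 3 ≤ _; omega) 2
    nlinarith
  refine ⟨h2, ?_⟩
  unfold pstar
  rw [if_neg, h2]
  rw [h2]
  rintro ⟨α, β, c, c', -, -, -, -, h3, h4⟩
  zify at h3 h4 hn
  have e : ((α : ℤ) + β - 2 * c - 2 * c') ^ 2 + 3 * ((α : ℤ) - β) ^ 2 +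
      3 * ((c : ℤ) - c') ^ 2 = 72 := by
    have e1 : (c' : ℤ) = 2 * α + 2 * β - 6 * k - c := by linarith
    rw [e1] at h4 ⊢
    linear_combination (6 : ℤ) * h4 - 12 * hn
  generalize (α : ℤ) + β - 2 * c - 2 * c' = x at e
  generalize (α : ℤ) - β = y at e
  generalize (c : ℤ) - c' = z at e
  have b1 : -9 < x ∧ x < 9 := by constructor <;> nlinarith [sq_nonneg y, sq_nonneg z]
  have b2 : -5 < y ∧ y < 5 := by constructor <;> nlinarith [sq_nonneg x, sq_nonneg z]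
  have b3 : -5 < z ∧ z < 5 := by constructor <;> nlinarith [sq_nonneg x, sq_nonneg y]
  obtain ⟨b1, b1'⟩ := b1
  obtain ⟨b2, b2'⟩ := b2
  obtain ⟨b3, b3'⟩ := b3
  interval_cases y <;> interval_cases z <;> interval_cases x <;> omega

end Pool.Agent.Results.MP_7b7a6d_co.AllN
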