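import Pool.Agent.MP_7b7a6d_co.Sb.All2

/-! The least convex region that holds the discs of radius `ρ` about the centres of `n` unit discs,
and its stability. -/

open MeasureTheory Metric Real
open scoped Pointwise ENNReal

noncomputable section
namespace Pool.Agent.Results.MP_7b7a6d_co.Stability

/-- the Euclidean plane -/
abbrev Plane : Type := EuclideanSpace ℝ (Fin 2)

/-- the points `s (2, 0) + u (1, √3)` with `0 ≤ s ≤ α`, `0 ≤ u ≤ β`, `c ≤ s + u ≤ α + β - c'` -/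
def Hex (α β c c' : ℕ) : Set Plane :=
  {z | ∃ s u : ℝ, z 0 = 2 * s + u ∧ z 1 = √3 * u ∧ 0 ≤ s ∧ s ≤ α ∧ 0 ≤ u ∧ u ≤ β ∧
    (c : ℝ) ≤ s + u ∧ s + u ≤ α + β - c'}

/-- the triangular lattice of minimal distance 2 -/
def Lat : Set Plane := {z | ∃ s u : ℤ, z 0 = 2 * s + u ∧ z 1 = √3 * u}

/-- data of a Groemer hexagon with `n` lattice points and perimeter `2 p` -/
def Data (n p α β c c' : ℕ) : Prop :=
  c ≤ α ∧ c ≤ β ∧ c' ≤ α ∧ c' ≤ β ∧ p + c + c' = 2 * α + 2 * β ∧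
    2 * n + c * (c + 1) + c' * (c' + 1) = 2 * (α + 1) * (β + 1)

/-- the number in Wegner's bound -/
def p0 (n : ℕ) : ℕ := ⌈√(12 * (n : ℝ) - 3) - 3⌉₊

open Classical in
/-- `p0 n`, or `p0 n + 1` for the exceptional `n` -/
def pstar (n : ℕ) : ℕ := if ∃ α β c c', Data n (p0 n) α β c c' then p0 n else p0 n + 1

/-- the least area -/
def W (n : ℕ) (ρ : ℝ) : ℝ := 2 * √3 * ((n : ℝ) - 1) + (2 * ρ - √3) * pstar n + π * ρ ^ 2

/-- the identification of `ℂ` with the plane -/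
def phi : ℂ ≃ᵢ Plane := Complex.orthonormalBasisOneI.repr.toIsometryEquiv

theorem phi0 (z : ℂ) : phi z 0 = z.re := by simp [phi]

theorem phi1 (z : ℂ) : phi z 1 = z.im := by simp [phi]

theorem phi_hex (α β c c' : ℕ) : phi '' MP7b.Hx α β c c' = Hex α β c c' := by
  ext z
  constructor
  · rintro ⟨_, ⟨s, u, rfl, h⟩, rfl⟩
    refine ⟨s, u, ?_, ?_, h⟩
    · rw [phi0]; simp [MP7b.om]; ring
    · rw [phi1]; simp [MP7b.om]; ring
  · rintro ⟨s, u, h0, h1, h⟩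
    refine ⟨_, ⟨s, u, rfl, h⟩, ?_⟩
    ext i
    fin_cases i
    · simp only [Fin.zero_eta, phi0, h0]; simp [MP7b.om]; ring
    · simp only [Fin.mk_one, phi1, h1]; simp [MP7b.om]; ring

theorem phi_rd (α β c c' : ℕ) (ρ : ℝ) :
    phi '' MP7b.Sb.Rdr ρ (MP7b.Hx α β c c') = Hex α β c c' + closedBall 0 ρ := by
  rw [← phi_hex]
  ext x
  constructor
  · rintro ⟨y, ⟨z, hz, h⟩, rfl⟩
    refine ⟨phi z, ⟨z, hz, rfl⟩, phi y - phi z, ?_, by simp⟩
    rwa [mem_closedBall_zero_iff, ← dist_eq_norm, phi.dist_eq]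
  · rintro ⟨_, ⟨z, hz, rfl⟩, w, hw, rfl⟩
    refine ⟨phi.symm (phi z + w), ⟨z, hz, ?_⟩, phi.apply_symm_apply _⟩
    rw [← phi.dist_eq, phi.apply_symm_apply]
    simpa using hw

theorem pt0 (p : ℤ × ℤ) : phi (MP7b.Sb.pt p) 0 = 2 * p.1 + p.2 := by
  rw [phi0]; simp [MP7b.Sb.pt, MP7b.om]; ring

theorem pt1 (p : ℤ × ℤ) : phi (MP7b.Sb.pt p) 1 = √3 * p.2 := by
  rw [phi1]; simp [MP7b.Sb.pt, MP7b.om]; ring

theorem pt_bij (α β c c' : ℕ) : Set.BijOn (fun p => phi (MP7b.Sb.pt p))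
    (MP7b.Sb.HF α β c c') (Hex α β c c' ∩ Lat) := by
  have h3 : (0 : ℝ) < √3 := by positivity
  refine ⟨fun p hp => ?_, fun p _ q _ e => ?_, ?_⟩
  · obtain ⟨h1, h2, h4, h5, h6, h7⟩ := MP7b.Sb.mem_HF.1 (Finset.mem_coe.1 hp)
    refine ⟨⟨p.1, p.2, pt0 p, pt1 p, by exact_mod_cast h1, by exact_mod_cast h2,
      by exact_mod_cast h4, by exact_mod_cast h5, by exact_mod_cast h6, ?_⟩, p.1, p.2, pt0 p, pt1 p⟩
    rw [le_sub_iff_add_le]
    exact_mod_cast h7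
  · have e0 := pt0 p
    have e1 := pt1 p
    simp only at e
    rw [e, pt0] at e0
    rw [e, pt1] at e1
    have k1 : (q.2 : ℝ) = p.2 := mul_left_cancel₀ h3.ne' e1
    have k2 : (q.1 : ℝ) = p.1 := by linarith
    exact Prod.ext (by exact_mod_cast k2.symm) (by exact_mod_cast k1.symm)
  · rintro z ⟨⟨s, u, a0, a1, h1, h2, h4, h5, h6, h7⟩, s', u', b0, b1⟩
    obtain rfl : u = u' := mul_left_cancel₀ h3.ne' (a1.symm.trans b1)
    obtain rfl : s = s' := by linarith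
    refine ⟨(s', u'), Finset.mem_coe.2 (MP7b.Sb.mem_HF.2 ⟨by exact_mod_cast h1,
      by exact_mod_cast h2, by exact_mod_cast h4, by exact_mod_cast h5, by exact_mod_cast h6, ?_⟩),
      ?_⟩
    · rw [le_sub_iff_add_le] at h7
      exact_mod_cast h7
    · ext i
      fin_cases i
      · simp only [Fin.zero_eta, pt0, b0]
      · simp only [Fin.mk_one, pt1, b1]

theorem result (n : ℕ) (hn : 3 ≤ n) (K : Set Plane) (hK : Convex ℝ K) (x : Fin n → Plane)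
    (hx : ∀ i j, i ≠ j → 2 ≤ dist (x i) (x j)) (ρ : ℝ) (hb : ∀ i, closedBall (x i) ρ ⊆ K)
    (ε : ℝ) (h0 : 0 ≤ ε) (h1 : ε < 2 * ρ - √3) (h2 : ε < 2 - √3) (h3 : ε < 8 - 3 * √3 - 2 * ρ)
    (h4 : pstar n ≠ p0 n → ε < 4 - √3 - 2 * ρ) (hv : volume K ≤ ENNReal.ofReal (W n ρ + ε)) :
    ENNReal.ofReal (W n ρ) ≤ volume K ∧ ∃ α β c c' : ℕ, Data n (pstar n) α β c c' ∧
      volume (Hex α β c c' + closedBall 0 ρ) = ENNReal.ofReal (W n ρ) ∧
      ∃ (f : Plane ≃ᵢ Plane) (y : Fin n → Plane),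
      Set.BijOn y Set.univ (Hex α β c c' ∩ Lat) ∧
      (∀ i j, dist (y i) (y j) = 2 → dist (x i) (x j) ≤ 2 + 4 * ε) ∧
      (∀ i, dist (x i) (f (y i)) ≤ 1000 * ε) ∧
      hausdorffEDist K (f '' (Hex α β c c' + closedBall 0 ρ)) ≤
        ENNReal.ofReal (1000 * ε + ρ * (2 * ε / ρ ^ 2) ^ (2 / 3 : ℝ)) := by
  classical
  have inj : Function.Injective fun i => phi.symm (x i) := fun i j e => by
    by_contra hij
    have := hx i j hij
    rw [phi.symm.injective e, dist_self] at this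
    norm_num at this
  obtain ⟨X, hX⟩ : ∃ X : Finset ℂ, X = Finset.univ.image fun i => phi.symm (x i) := ⟨_, rfl⟩
  have hc : X.card = n := by rw [hX, Finset.card_image_of_injective _ inj, Finset.card_fin]
  have mX : ∀ i, phi.symm (x i) ∈ X := fun i => hX ▸ Finset.mem_image_of_mem _ (Finset.mem_univ i)
  have eX : ∀ a ∈ X, ∃ i, phi.symm (x i) = a := fun a ha => by
    obtain ⟨i, -, e⟩ := Finset.mem_image.1 (hX ▸ ha)
    exact ⟨i, e⟩
  have hG : MP7b.Sb.Gap n ρ ε := ⟨h0, h1, h2, h3, h4⟩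
  have hS : MP7b.Sep X := fun a ha b hb hab => by
    obtain ⟨i, rfl⟩ := eX a ha
    obtain ⟨j, rfl⟩ := eX b hb
    rw [phi.symm.dist_eq]
    exact hx i j fun e => hab (by rw [e])
  have hC : Convex ℝ (phi.symm '' K) :=
    hK.affine_image phi.symm.toRealAffineIsometryEquiv.toAffineEquiv.toAffineMap
  have hB : ∀ a ∈ X, closedBall a ρ ⊆ phi.symm '' K := fun a ha => by
    obtain ⟨i, rfl⟩ := eX a ha
    rw [← phi.symm.image_closedBall]
    exact Set.image_mono (hb i)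
  have hV : volume (phi.symm '' K) ≤ ENNReal.ofReal (MP7b.Sb.Wr X.card ρ + ε) := by
    rw [MP7b.vol_iso, hc]
    exact hv
  obtain ⟨α, β, c, c', hd, ψ, z, u, hu, hbij, k1, k2, k3, k4⟩ :=
    MP7b.Sb.stbr_all X (hc ▸ hn) hS _ ρ ε hC hB (hc ▸ hG) hV
  obtain ⟨t, -, -, -, -, -, -, -, -, -, hl⟩ :=
    MP7b.Sb.redr_all X (hc ▸ hn) hS _ ρ ε hC hB (hc ▸ hG) hV
  have lo := hl _ hC hB
  rw [MP7b.vol_iso, hc] at lo
  rw [hc] at hd
  have ex := MP7b.Sb.extra MP7b.Sb.redr_all hn hG hd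
  rw [← MP7b.vol_iso phi, phi_rd] at ex
  have hρ : 0 < ρ := by linarith [Real.sqrt_nonneg 3]
  choose q hq hq' using fun i => hbij.surjOn (Finset.mem_coe.2 (mX i))
  have qb : Set.BijOn q Set.univ (MP7b.Sb.HF α β c c') := by
    refine ⟨fun i _ => hq i, fun i _ j _ e => inj ?_, fun p hp => ?_⟩
    · exact (hq' i).symm.trans (e ▸ hq' j)
    · obtain ⟨i, e⟩ := eX _ (hbij.mapsTo hp)
      exact ⟨i, trivial, hbij.injOn (hq i) hp ((hq' i).trans e)⟩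
  obtain ⟨f, hf⟩ : ∃ f : Plane ≃ᵢ Plane, ∀ w, f (phi w) = phi (z + u * w) :=
    ⟨phi.symm.trans ((MP7b.mot z u 0 hu).trans phi), fun w => by simp [MP7b.mot]⟩
  have xq : ∀ i, x i = phi (ψ (q i)) := fun i => by rw [hq', phi.apply_symm_apply]
  have r0 : 0 ≤ ρ * (2 * ε / ρ ^ 2) ^ (2 / 3 : ℝ) := by positivity
  refine ⟨lo, α, β, c, c', hd, ex, f, fun i => phi (MP7b.Sb.pt (q i)), (pt_bij α β c c').comp qb,
    fun i j h => ?_, fun i => ?_, hausdorffEDist_le_of_mem_edist (fun a ha => ?_) ?_⟩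
  · rw [xq, xq, phi.dist_eq]
    exact k1 _ (hq i) _ (hq j) (by rwa [phi.dist_eq] at h)
  · rw [xq, hf, phi.dist_eq]
    exact k2 _ (hq i)
  · obtain ⟨w, hw, h⟩ := k3 _ ⟨a, ha, rfl⟩
    refine ⟨f (phi w), ⟨_, phi_rd α β c c' ρ ▸ ⟨w, hw, rfl⟩, rfl⟩, ?_⟩
    rw [edist_dist, hf, ← phi.apply_symm_apply a, phi.dist_eq]
    exact ENNReal.ofReal_le_ofReal h
  · rw [← phi_rd]
    rintro _ ⟨_, ⟨w, hw, rfl⟩, rfl⟩
    obtain ⟨_, ⟨a, ha, rfl⟩, h⟩ := k4 w hw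
    refine ⟨a, ha, ?_⟩
    rw [edist_dist, hf, dist_comm, ← phi.apply_symm_apply a, phi.dist_eq]
    exact ENNReal.ofReal_le_ofReal (by linarith)

/-- for the hexagonal numbers the only data are those of the regular hexagon -/
theorem hexagonal (k α β c c' : ℕ) : p0 (3 * k ^ 2 + 3 * k + 1) = 6 * k ∧
    (Data (3 * k ^ 2 + 3 * k + 1) (6 * k) α β c c' → α = 2 * k ∧ β = 2 * k ∧ c = k ∧ c' = k) := by
  constructor
  · have h1 : 1 ≤ 3 * k ^ 2 + 3 * k + 1 := by omega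
    refine le_antisymm (MP7b.pz_le h1 (by nlinarith)) ?_
    have h2 := (MP7b.pz_spec h1).2
    by_contra h3
    have : (MP7b.pz (3 * k ^ 2 + 3 * k + 1) + 3) ^ 2 < (6 * k + 3) ^ 2 :=
      Nat.pow_lt_pow_left (by change p0 _ + 3 < _; omega) (by norm_num)
    nlinarith
  · rintro ⟨-, -, -, -, h1, h2⟩
    zify at h1 h2 ⊢
    have e : ((α : ℤ) + β - 2 * c - 2 * c') ^ 2 + 3 * ((α : ℤ) - β) ^ 2 +
        3 * ((c : ℤ) - c') ^ 2 = 0 := by
      have e1 : (c' : ℤ) = 2 * α + 2 * β - 6 * k - c := by linarith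
      rw [e1] at h2 ⊢
      linear_combination (6 : ℤ) * h2
    have a1 : (α : ℤ) + β - 2 * c - 2 * c' = 0 := by
      nlinarith [sq_nonneg ((α : ℤ) + β - 2 * c - 2 * c'), sq_nonneg ((α : ℤ) - β),
        sq_nonneg ((c : ℤ) - c')]
    have a2 : (α : ℤ) - β = 0 := by
      nlinarith [sq_nonneg ((α : ℤ) + β - 2 * c - 2 * c'), sq_nonneg ((α : ℤ) - β),
        sq_nonneg ((c : ℤ) - c')]
    have a3 : (c : ℤ) - c' = 0 := by
      nlinarith [sq_nonneg ((α : ℤ) + β - 2 * c - 2 * c'), sq_nonneg ((α : ℤ) - β),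
        sq_nonneg ((c : ℤ) - c')]
    omega

/-- the hexagonal numbers are not exceptional -/
theorem hexagonal' (k : ℕ) : pstar (3 * k ^ 2 + 3 * k + 1) = 6 * k := by
  have h := (hexagonal k 0 0 0 0).1
  rw [pstar, h, if_pos ⟨2 * k, 2 * k, k, k, by omega, by omega, by omega, by omega, by omega,
    by ring⟩]

/-- data exist for every `n` -/
theorem data (n : ℕ) (hn : 1 ≤ n) : ∃ α β c c', Data n (pstar n) α β c c' :=
  MP7b.groemer_ps MP7b.nt_all hn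

end Pool.Agent.Results.MP_7b7a6d_co.Stability
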